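import Mathlib

/-! Definitions: lattice-ordered groups, varieties, amalgamation bases. -/

namespace Pool.Agent.MP_a2e0a9_al

universe u v

/-- A lattice-ordered group: a group with a lattice order invariant under left and right
multiplication. -/
structure LGrp where
  carrier : Type u
  [grp : Group carrier]
  [lat : Lattice carrier]
  [ml : MulLeftMono carrier]
  [mr : MulRightMono carrier]

attribute [instance] LGrp.grp LGrp.lat LGrp.ml LGrp.mr

/-- Terms in the signature product, inverse, identity, join, meet. -/
inductive Term where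
  | var : ℕ → Term
  | one : Term
  | mul : Term → Term → Term
  | inv : Term → Term
  | sup : Term → Term → Term
  | inf : Term → Term → Term

/-- Value of a term under an assignment of the variables. -/
def Term.eval {G : Type u} [Group G] [Lattice G] (x : ℕ → G) : Term → G
  | .var n => x n
  | .one => 1
  | .mul s t => s.eval x * t.eval x
  | .inv s => (s.eval x)⁻¹
  | .sup s t => s.eval x ⊔ t.eval x
  | .inf s t => s.eval x ⊓ t.eval x

/-- `G` belongs to the variety defined by the set of identities `S`. -/
def Sat (S : Set (Term × Term)) (G : LGrp.{u}) : Prop :=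
  ∀ p ∈ S, ∀ x : ℕ → G.carrier, p.1.eval x = p.2.eval x

/-- Homomorphism of lattice-ordered groups. -/
def IsLHom {G : LGrp.{u}} {H : LGrp.{v}} (f : G.carrier → H.carrier) : Prop :=
  (∀ a b, f (a * b) = f a * f b) ∧ (∀ a b, f (a ⊔ b) = f a ⊔ f b) ∧ (∀ a b, f (a ⊓ b) = f a ⊓ f b)

/-- Embedding of lattice-ordered groups. -/
def IsLEmb {G : LGrp.{u}} {H : LGrp.{v}} (f : G.carrier → H.carrier) : Prop :=
  IsLHom f ∧ Function.Injective f

/-- `A` is an amalgamation base of the variety defined by `S`. -/
def IsAmalgBase (S : Set (Term × Term)) (A : LGrp.{v}) : Prop :=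
  Sat S A ∧ ∀ (B C : LGrp.{u}), Sat S B → Sat S C →
    ∀ (f : A.carrier → B.carrier) (g : A.carrier → C.carrier), IsLEmb f → IsLEmb g →
      ∃ (D : LGrp.{u}) (h : B.carrier → D.carrier) (k : C.carrier → D.carrier),
        Sat S D ∧ IsLEmb h ∧ IsLEmb k ∧ h ∘ f = k ∘ g

/-- The integers with the usual order, written multiplicatively. -/
def intLGrp : LGrp.{0} := { carrier := Multiplicative ℤ }

/-- Representable: a subdirect product of totally ordered groups, i.e. every element other
than the identity survives in some homomorphism to a totally ordered group. -/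
def Representable (G : LGrp.{u}) : Prop :=
  ∀ a : G.carrier, a ≠ 1 → ∃ (H : LGrp.{u}) (f : G.carrier → H.carrier),
    (∀ x y : H.carrier, x ≤ y ∨ y ≤ x) ∧ IsLHom f ∧ f a ≠ 1

/-- The law `a b ≤ b² a²` for `a, b ≥ e`, which defines the variety of normal-valued
lattice-ordered groups. -/
def NormalValued (G : LGrp.{u}) : Prop :=
  ∀ a b : G.carrier, 1 ≤ a → 1 ≤ b → a * b ≤ b ^ 2 * a ^ 2

end Pool.Agent.MP_a2e0a9_al
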